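import Pool.Agent.J6H68.Nut.Stm

/-!
# The conditions of the first kind are preserved (module NUT-STEP1)
-/

set_option autoImplicit false
set_option linter.unusedSectionVars false

namespace Pool.Agent.J6H84.Nut

open Finset Pool.Agent.J6H68.Nut

variable {V : Type} [Fintype V] [DecidableEq V]

theorem row_inl {R : Type} [CommRing R] (S : V → V → ℤ) (hs : ∀ i j, S i j = S j i) (e f : V)
    (hef : e ≠ f) (h1 : S e f = 1) (g : V ⊕ Fin 4 → R) (i : V) :
    ∑ q, ((ins4 S e f (.inl i) q : ℤ) : R) * g q = ∑ j, (S i j : R) * g (.inl j) +
      (if i = e then g (.inr 0) - g (.inl f) else 0) +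
      (if i = f then g (.inr 3) - g (.inl e) else 0) := by
  rw [Fintype.sum_sum_type, Fin.sum_univ_four]
  have h2 : ∀ j, ((ins4 S e f (.inl i) (.inl j) : ℤ) : R) * g (.inl j) =
      (S i j : R) * g (.inl j) + ((if j = f then (if i = e then - g (.inl f) else 0) else 0) +
        (if j = e then (if i = f then - g (.inl e) else 0) else 0)) := by
    intro j
    have h1' : S f e = 1 := by rw [hs]; exact h1
    simp only [ins4]
    by_cases i1 : i = e
    · subst i1
      simp only [hef, true_and, false_and, or_false, if_true, if_false]
      by_cases j1 : j = f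
      · subst j1
        simp [h1, hef.symm]
      · simp [j1]
    · by_cases i2 : i = f
      · subst i2
        simp only [i1, true_and, false_and, false_or, if_true, if_false]
        by_cases j1 : j = e
        · subst j1
          simp [h1']
        · simp [j1]
      · simp [i1, i2]
  rw [Finset.sum_congr rfl fun j _ => h2 j, Finset.sum_add_distrib, Finset.sum_add_distrib]
  simp only [Finset.sum_ite_eq', Finset.mem_univ, if_true, ins4]
  by_cases i1 : i = e
  · subst i1
    simp [hef]
    ring
  · by_cases i2 : i = f
    · subst i2
      simp [i1]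
      ring
    · simp [i1, i2]

theorem row_inr0 {R : Type} [CommRing R] (S : V → V → ℤ) (e f : V)
    (g : V ⊕ Fin 4 → R) :
    ∑ q, ((ins4 S e f (.inr 0) q : ℤ) : R) * g q = g (.inl e) + g (.inr 1) := by
  rw [Fintype.sum_sum_type, Fin.sum_univ_four]
  simp [ins4]

theorem row_inr1 {R : Type} [CommRing R] (S : V → V → ℤ) (e f : V)
    (g : V ⊕ Fin 4 → R) :
    ∑ q, ((ins4 S e f (.inr 1) q : ℤ) : R) * g q = g (.inr 0) + g (.inr 2) := by
  rw [Fintype.sum_sum_type, Fin.sum_univ_four]
  simp [ins4]

theorem row_inr2 {R : Type} [CommRing R] (S : V → V → ℤ) (e f : V)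
    (g : V ⊕ Fin 4 → R) :
    ∑ q, ((ins4 S e f (.inr 2) q : ℤ) : R) * g q = g (.inr 1) + g (.inr 3) := by
  rw [Fintype.sum_sum_type, Fin.sum_univ_four]
  simp [ins4]

theorem row_inr3 {R : Type} [CommRing R] (S : V → V → ℤ) (e f : V)
    (g : V ⊕ Fin 4 → R) :
    ∑ q, ((ins4 S e f (.inr 3) q : ℤ) : R) * g q = g (.inr 2) + g (.inl f) := by
  rw [Fintype.sum_sum_type, Fin.sum_univ_four]
  simp [ins4]
  ring

theorem st_step1 : StStep1 := by
  intro V _ _ S e f hs hef h1
  have e2 : (2 : ZMod 2) = 0 := by decide
  refine ⟨?_, ?_⟩
  · intro hK v hv
    have r0 := hv (.inr 0)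
    have r1 := hv (.inr 1)
    have r2 := hv (.inr 2)
    have r3 := hv (.inr 3)
    rw [row_inr0 S e f] at r0
    rw [row_inr1 S e f] at r1
    rw [row_inr2 S e f] at r2
    rw [row_inr3 S e f] at r3
    have q1 : v (.inr 1) = v (.inl e) := by
      linear_combination r0 - v (.inl e) * e2
    have q2 : v (.inr 2) = v (.inl f) := by
      linear_combination r3 - v (.inl f) * e2
    have q0 : v (.inr 0) = v (.inl f) := by
      linear_combination r1 - q2 - v (.inl f) * e2
    have q3 : v (.inr 3) = v (.inl e) := by
      linear_combination r2 - q1 - v (.inl e) * e2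
    have k1 : ∀ i, ∑ j, (S i j : ZMod 2) * v (.inl j) = 0 := by
      intro i
      have := hv (.inl i)
      rw [row_inl S hs e f hef h1, q0, q3] at this
      simpa using this
    rcases hK (fun j => v (.inl j)) k1 with h3 | h3
    · left
      have he := congrFun h3 e
      have hf := congrFun h3 f
      simp only [Pi.zero_apply] at he hf
      funext q
      rcases q with i | t
      · exact congrFun h3 i
      · fin_cases t
        · simp [q0, hf]
        · simp [q1, he]
        · simp [q2, hf]
        · simp [q3, he]
    · right
      have he := congrFun h3 e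
      have hf := congrFun h3 f
      funext q
      rcases q with i | t
      · exact congrFun h3 i
      · fin_cases t
        · simp [q0, hf]
        · simp [q1, he]
        · simp [q2, hf]
        · simp [q3, he]
  · rintro σ ⟨w, hw, hσ⟩
    refine ⟨ext4 w (w f) (w e + 1) (w f + 1) (w e), ?_, ?_⟩
    · intro q
      rcases q with i | t
      · rw [row_inl S hs e f hef h1]
        simp only [ext4]
        simp [hw i]
      · fin_cases t
        · simp only [Fin.zero_eta, Fin.isValue]
          rw [row_inr0 S e f]
          simp only [ext4]
          simp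
          linear_combination w e * e2
        · simp only [Fin.mk_one, Fin.isValue]
          rw [row_inr1 S e f]
          simp only [ext4]
          simp
          linear_combination w f * e2
        · simp only [Fin.reduceFinMk, Fin.isValue]
          rw [row_inr2 S e f]
          simp only [ext4]
          simp
          linear_combination w e * e2
        · simp only [Fin.reduceFinMk, Fin.isValue]
          rw [row_inr3 S e f]
          simp only [ext4]
          simp
          linear_combination w f * e2
    · rw [Fintype.sum_sum_type, Fin.sum_univ_four]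
      simp only [ext4]
      simp
      linear_combination hσ + (w e + w f + 1) * e2

end Pool.Agent.J6H84.Nut
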